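import Pool.Agent.V119.GQ.Conv

/-!
# Goncharov's complexes in the degrees `n - 1` and `n`, for `k(x)`, `k` algebraic over `F_p`, and for `ℚ`

(1) Let `F = k(x)`, `k` ANY algebraic extension of `F_p`, for instance a finite field. Then
`H^1`, `H^{n-1}` and `H^n` of the complexes `Γ(F,n) ⊗ ℚ` vanish for all `n ≥ 2`; in particular
`Γ(F,2) ⊗ ℚ` and `Γ(F,3) ⊗ ℚ` are acyclic. Goncharov's conjecture predicts this, because
`K_m(F) ⊗ ℚ = 0` for `m ≥ 2`.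

(2) Let `F = ℚ`. Then `H^n(Γ(ℚ,n) ⊗ ℚ) = 0` for all `n ≥ 2`, and `H^{n-1}(Γ(ℚ,n) ⊗ ℚ) = 0` for all
`n ≥ 3`, if this holds for `n = 2`, that is if `H^1(Γ(ℚ,2) ⊗ ℚ) = 0` (this is `K_3(ℚ) ⊗ ℚ = 0`). The
conjecture predicts `gr_n K_{n+1}(ℚ) ⊗ ℚ = 0`.

Proof. The elements `f ⊗ (1-f)` and `f ⊗ f ⊗ (1-f)` span `F^* ⊗ F^* ⊗ ℚ`, respectively
`Sym²(F^*) ⊗ F^* ⊗ ℚ` (`Y775.W3.span_poly`, `Y775.W3.span_rat`). A functional on
`(B_2(F) ⊗ Λ^{n-2} F^*) ⊗ ℚ` which vanishes on the image of `(B_3(F) ⊗ Λ^{n-3} F^*) ⊗ ℚ` is, because of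
`H^1(Γ(F,2) ⊗ ℚ) = 0`, of the form `{x} ⊗ y ↦ Ψ(1-x, x; y)` with `Ψ(1-x, x; x, y') = 0`, hence
`Ψ(v, s; s, y') = 0` for all `v`, `s`, and so it comes from an alternating form.

The definitions are in `Pool/Agent/H39R2/GonP/Defs.lean`.
-/

set_option autoImplicit false

namespace Pool.Agent.Results.MP_9c6ec7_al.LastTwoDegrees

open GonP

/-- (1) For `F = k(x)`, `k` an algebraic extension of `F_p`, the differentials of the complexes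
`Γ(F,n) ⊗ ℚ`, `n ≥ 2`, exist and are unique; `H^1 = 0` for all `n ≥ 2` (`D.d m 0`, `n = m + 3`, and
`D.e 0`, `n = 2`, are injective), `H^{n-1} = 0` for all `n = j + 3` (exactness at
`(B_2(F) ⊗ Λ^{j+1} F^*) ⊗ ℚ`) and `H^n = 0` for all `n = j + 2` (`D.e j` is surjective).
(2) For all differentials of the complexes `Γ(ℚ,n) ⊗ ℚ`: `H^n = 0` for all `n ≥ 2`, and if
`H^1(Γ(ℚ,2) ⊗ ℚ) = 0` then `H^{n-1}(Γ(ℚ,n) ⊗ ℚ) = 0` for all `n ≥ 3`. -/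
theorem result :
    (∀ (p : ℕ) [Fact p.Prime] (k : Type) [Field k] [Algebra (ZMod p) k]
      [Algebra.IsAlgebraic (ZMod p) k],
      ∃ D : Differentials (RatFunc k), (∀ D' : Differentials (RatFunc k), D' = D) ∧
        (∀ m, Function.Injective (D.d m 0)) ∧ Function.Injective (D.e 0) ∧
        (∀ j, Function.Exact (D.d 0 j) (D.e (j + 1))) ∧ ∀ j, Function.Surjective (D.e j)) ∧
    ∀ D : Differentials ℚ, (∀ j, Function.Surjective (D.e j)) ∧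
      (Function.Injective (D.e 0) → ∀ j, Function.Exact (D.d 0 j) (D.e (j + 1))) :=
  ⟨fun p _ k _ _ _ => Pool.Agent.V119.GQ.fun_P p k, fun D => Pool.Agent.V119.GQ.rat_P D⟩

end Pool.Agent.Results.MP_9c6ec7_al.LastTwoDegrees
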